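import Pool.Agent.Helper8.HA.HitOf
import Pool.Agent.Helper83.HA.Ccc

set_option autoImplicit false
set_option linter.unusedSectionVars false

namespace Pool.Agent.Helper69.HA

open Set Pool.Agent.Helper33.HM Pool.Agent.Helper33.HMG Pool.Agent.Helper32.HB
open Pool.Agent.Helper52.MA (El IsOmega1 setsM pairN numN on wN setN st PCCC)

universe u

variable {I : Type u} [LinearOrder I] [WellFoundedLT I] {Ω : Type} [LinearOrder Ω]
  {e : Ω → ℕ → Ω → Prop} {code : I → Ω → Set (Cond I Ω)}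

theorem exists_hit [WellFoundedLT Ω] (he : EnumL (fun x y => x < y) e)
    (hb : ∀ s : Set Ω, s.Countable → ∃ b, ∀ x ∈ s, x < b) (hI : ∀ b : Ω, (Iio b).Countable)
    (a : ℕ → RO (PC e code)) (i : I) (p : PC e code)
    (h : ∀ n q, q ≤ p → ∃ r, r ≤ q ∧ ∃ l, n ≤ l ∧ r ∈ a l) :
    ∃ q, q ≤ p ∧ ∃ δ : Ω, ∀ n r, r ≤ q → ∃ r', r' ≤ r ∧ ∃ l, n ≤ l ∧ r' ∈ a l ∧
      CE r' i δ (.inr l) true :=
  exists_hit_of ⟨CE_mono, exists_eval he, exists_nice he,
    fun hA _ _ hp hq hqp hag => amalgam he hA hp hq hqp hag, pc_ccc he hb hI⟩ he hb hI a i p h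

end Pool.Agent.Helper69.HA
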