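import Pool.Agent.Helper30.HA.Good
import Pool.Agent.Helper12.HA.Red

/-! # Project HA, module HA-9: infinite sets of numbers, from the facts of the modules 2, 3, 4, 6, 8 -/

set_option autoImplicit false
set_option linter.unusedSectionVars false

namespace Pool.Agent.Helper69.HA

open Set Pool.Agent.Helper33.HM Pool.Agent.Helper33.HMG Pool.Agent.Helper32.HB
open Pool.Agent.Helper52.MA (El IsOmega1 setsM pairN numN on wN setN st PCCC)

universe u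

section Hit

variable {I : Type u} [LinearOrder I] [WellFoundedLT I] {Ω : Type} [LinearOrder Ω]
  {e : Ω → ℕ → Ω → Prop} {code : I → Ω → Set (Cond I Ω)}

/-- A promise is free. -/
theorem hit_promise (p : PC e code) (i : I) (δ : Ω) : ∃ q, q ≤ p ∧ (q.f i).F δ 0 := by
  refine ⟨PC.put p i ⟨(p.f i).c, (p.f i).φ, fun x n => (p.f i).F x n ∨ (x = δ ∧ n = 0),
    (p.f i).finc, (p.f i).finφ, ?_⟩, ?_, ?_⟩
  · refine ((p.f i).finF.union (finite_singleton (δ, 0))).subset ?_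
    rintro ⟨x, n⟩ (h | ⟨h, h'⟩)
    · exact Or.inl h
    · right
      simp only at h h'
      rw [h, h']
      exact mem_singleton _
  · rw [PC.le_iff]
    intro j
    rw [PC.put_f]
    by_cases hj : j = i
    · subst hj
      rw [if_pos rfl]
      refine ⟨⟨fun _ _ _ h => h, fun _ _ h => h, fun _ _ h => Or.inl h⟩, ?_⟩
      intro ξ n δ' h1 h2 _
      rw [h2] at h1
      exact absurd h1 (by simp)
    · rw [if_neg hj]
      refine ⟨⟨fun _ _ _ h => h, fun _ _ h => h, fun _ _ h => h⟩, ?_⟩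
      intro ξ n δ' h1 h2 _
      rw [h2] at h1
      exact absurd h1 (by simp)
  · rw [PC.put_f, if_pos rfl]
    exact Or.inr ⟨rfl, rfl⟩

/-- The facts of the modules 2, 3, 4, 6, 8. -/
structure HitFacts (e : Ω → ℕ → Ω → Prop) (code : I → Ω → Set (Cond I Ω)) : Prop where
  mono : ∀ {p q : PC e code}, q ≤ p → ∀ {j : I} {δ : Ω} {o : Ω ⊕ ℕ} {b : Bool},
    CE p j δ o b → CE q j δ o b
  eval : ∀ (ρ : Ω → ℕ → ℕ) (j : I) (δ : Ω) (o : Ω ⊕ ℕ) (p : PC e code),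
    ∃ q, Ext ρ j q p ∧ ∃ b, CE q j δ o b
  nice : ∀ p : PC e code, ∃ q, q ≤ p ∧ Nice q ∧
    ∀ k, q.f k ≠ Dat.emp → ∃ j, k ≤ j ∧ p.f j ≠ Dat.emp
  amalgam : ∀ {A : Set I} {β : Ω}, Good e code A β → ∀ {p q : PC e code}, Nice p → In A β q →
    q ≤ red A β p →
    (∀ i ∈ A, ∀ γ, γ < β → ∀ n, (p.f i).F γ n → ∀ k v, p ∈ Dv i γ k v → q ∈ Dv i γ k v) →
    ∀ (i₀ j₀ : I) (v₀ : Bool) (l : ℕ),
    ∃ u, u ≤ p ∧ u ≤ q ∧ (i₀ ∈ A → (∃ n, (p.f i₀).F β n) → p ∈ Dv i₀ β j₀ v₀ →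
      (p.f j₀).c β l = none →
      (∀ m x γ, (p.f j₀).c β m = some x → e β m γ → CE q i₀ γ (.inr l) false) →
        CE u i₀ β (.inr l) true)
  ccc : PCCC (PC e code)

theorem exists_hit_of [WellFoundedLT Ω] (H : HitFacts e code) (he : EnumL (fun x y => x < y) e)
    (hb : ∀ s : Set Ω, s.Countable → ∃ b, ∀ x ∈ s, x < b) (hI : ∀ b : Ω, (Iio b).Countable)
    (a : ℕ → RO (PC e code)) (i : I) (p : PC e code)
    (h : ∀ n q, q ≤ p → ∃ r, r ≤ q ∧ ∃ l, n ≤ l ∧ r ∈ a l) :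
    ∃ q, q ≤ p ∧ ∃ δ : Ω, ∀ n r, r ≤ q → ∃ r', r' ≤ r ∧ ∃ l, n ≤ l ∧ r' ∈ a l ∧
      CE r' i δ (.inr l) true := by
  by_contra hcon
  have star : ∀ q, q ≤ p → ∀ δ : Ω, ∃ n r, r ≤ q ∧ ∀ r', r' ≤ r → ∀ l, n ≤ l → r' ∈ a l →
      ¬ CE r' i δ (.inr l) true := by
    intro q hq δ
    by_contra hc
    apply hcon
    refine ⟨q, hq, δ, fun n r hr => ?_⟩
    by_contra hc2
    apply hc
    refine ⟨n, r, hr, fun r' hr' l hl hal hce => hc2 ⟨r', hr', l, hl, hal, hce⟩⟩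
  clear hcon
  have hccc : PCCC (PC e code) := H.ccc
  obtain ⟨β₀, -⟩ := hb ∅ countable_empty
  obtain ⟨A, β, hiA, -, -, -, hgood, hrefl⟩ := exists_good (e := e) (code := code) hb hI
    (J := univ) (fun _ _ _ _ => mem_univ _) (fun _ _ A _ hA => hccc A hA) (A₀ := {i})
    (countable_singleton i) (subset_univ _) β₀
    (fun r π n q => q ≤ r ∧ (∀ z ∈ π, q ∈ Dv z.1 z.2.1 z.2.2.1 z.2.2.2) ∧
      ∃ l, n ≤ l ∧ q ∈ a l ∧ ∀ z ∈ π, z.1 = i → CE q i z.2.1 (.inr l) false)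
    (fun _ _ _ _ _ _ _ => mem_univ _)
  have hi : i ∈ A := hiA rfl
  obtain ⟨n₁, p₁, hp₁, hno⟩ := star p le_rfl β
  obtain ⟨p₁', hp₁', hF⟩ := hit_promise p₁ i β
  obtain ⟨p₂, hp₂, hnice, -⟩ := H.nice p₁'
  have hF2 : (p₂.f i).F β 0 := (PC.le_data hp₂ i).F _ _ hF
  obtain ⟨j₀, v₀, hDv⟩ := hnice.n1 i β 0 hF2
  obtain ⟨π, hπ1, hπ2, hπ3⟩ := exists_list hgood hnice
  obtain ⟨N, hN⟩ : ∃ N, ∀ l, (p₂.f j₀).c β l ≠ none → l < N := by
    have hfin : {l | (p₂.f j₀).c β l ≠ none}.Finite := by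
      refine ((p₂.f j₀).finc.image Prod.snd).subset ?_
      intro l hl
      exact ⟨(β, l), hl, rfl⟩
    obtain ⟨N, hN⟩ := hfin.bddAbove
    exact ⟨N + 1, fun l hl => Nat.lt_succ_of_le (hN hl)⟩
  have hpp : p₂ ≤ p := hp₂.trans (hp₁'.trans hp₁)
  -- decide against the membership for all the levels of the list
  have key : ∀ π' : List (I × Ω × I × Bool), ∃ p₃ n₃, p₃ ≤ p₂ ∧ n₁ ≤ n₃ ∧ N ≤ n₃ ∧
      ∀ z ∈ π', ∀ r', r' ≤ p₃ → ∀ l, n₃ ≤ l → r' ∈ a l → ¬ CE r' i z.2.1 (.inr l) true := by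
    intro π'
    induction π' with
    | nil => exact ⟨p₂, max n₁ N, le_rfl, le_max_left _ _, le_max_right _ _, by simp⟩
    | cons z π' ih =>
      obtain ⟨p₃, n₃, b1, b2, b3, b4⟩ := ih
      obtain ⟨n, r, hr, hr2⟩ := star p₃ (b1.trans hpp) z.2.1
      refine ⟨r, max n₃ n, hr.trans b1, b2.trans (le_max_left _ _), b3.trans (le_max_left _ _), ?_⟩
      intro z' hz' r' hr' l hl hal
      rcases List.mem_cons.1 hz' with rfl | hz'
      · exact hr2 r' hr' l ((le_max_right _ _).trans hl) hal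
      · exact b4 z' hz' r' (hr'.trans hr) l ((le_max_left _ _).trans hl) hal
  obtain ⟨p₃, n₃, hp₃, hn1, hn2, hp3no⟩ := key π
  obtain ⟨p₄, hp₄, l, hl, hal⟩ := h n₃ p₃ (hp₃.trans hpp)
  have key2 : ∀ π' : List (I × Ω × I × Bool), ∃ p₅, p₅ ≤ p₄ ∧
      ∀ z ∈ π', ∃ b, CE p₅ i z.2.1 (.inr l) b := by
    intro π'
    induction π' with
    | nil => exact ⟨p₄, le_rfl, by simp⟩
    | cons z π' ih =>
      obtain ⟨p₅, b1, b2⟩ := ih
      obtain ⟨q, hq, b, hb'⟩ := H.eval (fun _ _ => 0) i z.2.1 (.inr l) p₅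
      refine ⟨q, hq.le.trans b1, ?_⟩
      intro z' hz'
      rcases List.mem_cons.1 hz' with rfl | hz'
      · exact ⟨b, hb'⟩
      · obtain ⟨b', hb2⟩ := b2 z' hz'
        exact ⟨b', H.mono hq.le hb2⟩
  obtain ⟨p₅, hp₅, hce5⟩ := key2 π
  have hal5 : p₅ ∈ a l := RO.mem_lower hp₅ hal
  have hp52 : p₅ ≤ p₂ := hp₅.trans (hp₄.trans hp₃)
  obtain ⟨q, hqin, hqr, hqD, l', hl', hal', hce'⟩ := hrefl (red A β p₂) π n₃ (in_red A β p₂) hπ1
    ⟨p₅, hp52.trans (le_red A β p₂), fun z hz => RO.mem_lower hp52 (hπ2 z hz).2, l, hl, hal5, by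
      intro z hz _
      obtain ⟨b, hb'⟩ := hce5 z hz
      cases b with
      | false => exact hb'
      | true => exact absurd hb' (hp3no z hz p₅ (hp₅.trans hp₄) l hl hal5)⟩
  obtain ⟨u, hu1, hu2, hu3⟩ := H.amalgam hgood hnice hqin hqr
    (fun i' hi' γ hγ n hFn k v hD => hqD _ (hπ3 i' hi' γ hγ n hFn k v hD)) i j₀ v₀ l'
  have hnone : (p₂.f j₀).c β l' = none := by
    by_contra hc
    have := hN l' hc
    omega
  have hce : CE u i β (.inr l') true := by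
    refine hu3 hi ⟨0, hF2⟩ hDv hnone fun m x γ hx hγ => ?_
    have hFγ := hnice.n2 i β 0 j₀ v₀ m x γ hF2 hDv hx hγ
    obtain ⟨k, v, hD⟩ := hnice.n1 i γ 0 hFγ
    exact hce' _ (hπ3 i hi γ (he.below _ _ _ hγ) 0 hFγ k v hD) rfl
  exact hno u (hu1.trans (hp₂.trans hp₁')) l' (by omega) (RO.mem_lower hu2 hal') hce

end Hit

end Pool.Agent.Helper69.HA
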